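import Pool.Agent.H773.CS.Stm

/-!
CS-CLS (helper921 for helper773): stability, a set with few violations is almost everything.
-/

open Finset

namespace Pool.Agent.H921.CS

open Pool.Agent.H773.CS

open scoped Pointwise in
theorem t_cls (hH : S_H) : S_cls := by
  intro P hPf hP N ep hep0 hep1 hn hsum
  have hPr : P.Prime := hPf.out
  haveI : NeZero P := ⟨hPr.ne_zero⟩
  obtain ⟨h1, h2, h3⟩ := hH P N
  obtain ⟨n, hnn⟩ : ∃ n : ℝ, n = N.card := ⟨_, rfl⟩
  obtain ⟨h, hh⟩ : ∃ h : ZMod P → ℝ, ∀ y, h y = (HH N y : ℝ) := ⟨fun y => HH N y, fun _ => rfl⟩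
  obtain ⟨Q, hQ⟩ : ∃ Q : ℝ, Q = 8 * ep * (P : ℝ) ^ 3 := ⟨_, rfl⟩
  obtain ⟨p, hp⟩ : ∃ p : ℝ, p = (P : ℝ) := ⟨_, rfl⟩
  have hp1 : 10000 ≤ p := by
    rw [hp]
    exact_mod_cast hP
  have h0' : ∀ y, 0 ≤ h y := fun y => by
    rw [hh]
    exact Nat.cast_nonneg _
  have h1' : ∀ y, h y ≤ 2 * n := fun y => by
    rw [hh, hnn]
    exact_mod_cast h1 y
  have h2' : ∑ y, h y = n ^ 2 := by
    rw [hnn, Finset.sum_congr rfl fun y _ => hh y]
    exact_mod_cast h2
  have h3' : ∀ y y', h y + h y' ≤ h (y + y') + 2 * n := fun y y' => by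
    rw [hh, hh, hh, hnn]
    exact_mod_cast h3 y y'
  rw [← hnn, ← hQ] at hsum
  rw [← hnn, ← hp] at hn
  rw [← hnn, ← hp]
  rw [← hp] at hQ
  have hsum' : ∑ y, h y * (2 * n - h y) ≤ Q := by
    rw [Finset.sum_congr rfl fun y _ => by rw [hh]]
    exact hsum
  have hterm : ∀ y, 0 ≤ h y * (2 * n - h y) := fun y =>
    mul_nonneg (h0' y) (by linarith [h1' y])
  have hn0 : 0 < n := by linarith
  have hQ0 : 0 ≤ Q := by
    rw [hQ]
    positivity
  have hQ1 : Q ≤ 8 / 5000 * p ^ 3 := by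
    rw [hQ]
    have : 0 ≤ p ^ 3 := by positivity
    nlinarith
  -- the sets
  obtain ⟨S, hS⟩ : ∃ S : Finset (ZMod P), ∀ y, y ∈ S ↔ 3 * n ≤ 2 * h y := by
    classical
    exact ⟨univ.filter fun y => 3 * n ≤ 2 * h y, fun y => by simp⟩
  obtain ⟨M, hM⟩ : ∃ M : Finset (ZMod P), ∀ y, y ∈ M ↔ n ≤ 2 * h y ∧ 2 * h y < 3 * n := by
    classical
    exact ⟨univ.filter fun y => n ≤ 2 * h y ∧ 2 * h y < 3 * n, fun y => by simp⟩
  -- (i)
  have hi : 3 * n ^ 2 * M.card ≤ 4 * Q := by
    have h4 : ∑ _y ∈ M, (3 * n ^ 2 / 4) ≤ ∑ y ∈ M, h y * (2 * n - h y) := by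
      refine Finset.sum_le_sum fun y hy => ?_
      obtain ⟨h5, h6⟩ := (hM y).1 hy
      nlinarith [mul_nonneg (show 0 ≤ 2 * h y - n by linarith)
        (show 0 ≤ 3 * n - 2 * h y by linarith)]
    have h5 : ∑ y ∈ M, h y * (2 * n - h y) ≤ ∑ y, h y * (2 * n - h y) :=
      Finset.sum_le_sum_of_subset_of_nonneg (Finset.subset_univ _) fun y _ _ => hterm y
    rw [Finset.sum_const, nsmul_eq_mul] at h4
    linarith
  -- (ii)
  have hii : n ^ 3 ≤ 2 * n ^ 2 * S.card + 2 * Q := by
    have h4 : ∀ y, n * h y ≤ (if y ∈ S then 2 * n ^ 2 else 0) + 2 * (h y * (2 * n - h y)) := by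
      intro y
      split_ifs with hy
      · nlinarith [h1' y, hterm y]
      · have h5 : 2 * h y < 3 * n := not_le.1 fun h6 => hy ((hS y).2 h6)
        nlinarith [h0' y]
    have h5 := Finset.sum_le_sum (s := univ) fun y _ => h4 y
    rw [← Finset.mul_sum, h2', Finset.sum_add_distrib, ← Finset.mul_sum, Finset.sum_ite_mem,
      Finset.univ_inter, Finset.sum_const, nsmul_eq_mul] at h5
    nlinarith
  have hn3 : 216 / 1000 * p ^ 3 ≤ n ^ 3 := by
    have := pow_le_pow_left₀ (by linarith) hn 3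
    refine le_trans (le_of_eq ?_) this
    ring
  have hn2 : 36 / 100 * p ^ 2 ≤ n ^ 2 := by
    have := pow_le_pow_left₀ (by linarith) hn 2
    refine le_trans (le_of_eq ?_) this
    ring
  have hp3 : 0 < p ^ 3 := by positivity
  have hSne : S.Nonempty := by
    rw [Finset.nonempty_iff_ne_empty]
    rintro rfl
    rw [Finset.card_empty, Nat.cast_zero, mul_zero, zero_add] at hii
    linarith
  -- (iii)
  have hsub : S + S ⊆ S ∪ M := by
    intro z hz
    obtain ⟨y, hy, y', hy', rfl⟩ := Finset.mem_add.1 hz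
    have h5 := (hS y).1 hy
    have h6 := (hS y').1 hy'
    have h7 := h3' y y'
    rw [Finset.mem_union]
    by_cases h8 : 3 * n ≤ 2 * h (y + y')
    · exact Or.inl ((hS _).2 h8)
    · exact Or.inr ((hM _).2 ⟨by linarith, not_le.1 h8⟩)
  have hcd := ZMod.cauchy_davenport hPr hSne hSne
  have hcard : (S + S).card ≤ S.card + M.card :=
    (Finset.card_le_card hsub).trans (Finset.card_union_le _ _)
  rcases min_le_iff.1 (hcd.trans hcard) with hc | hc
  · -- all of `ZMod P`
    have huniv : S ∪ M = univ := by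
      have hdis : Disjoint S M := by
        rw [Finset.disjoint_left]
        intro y hy hy'
        have h5 := (hS y).1 hy
        have h6 := ((hM y).1 hy').2
        linarith
      apply Finset.eq_univ_of_card
      rw [Finset.card_union_of_disjoint hdis, ZMod.card]
      refine le_antisymm ?_ hc
      have h5 := Finset.card_le_univ (S ∪ M)
      rw [Finset.card_union_of_disjoint hdis, ZMod.card] at h5
      exact h5
    have hall : ∀ y, n ≤ 2 * h y := by
      intro y
      have h5 : y ∈ S ∪ M := by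
        rw [huniv]
        exact Finset.mem_univ y
      rcases Finset.mem_union.1 h5 with h6 | h6
      · linarith [(hS y).1 h6]
      · exact ((hM y).1 h6).1
    have h4 : ∀ y, n * (2 * n - h y) ≤ 2 * (h y * (2 * n - h y)) := by
      intro y
      nlinarith [h1' y, hall y]
    have h5 := Finset.sum_le_sum (s := univ) fun y _ => h4 y
    rw [← Finset.mul_sum, ← Finset.mul_sum, Finset.sum_sub_distrib, h2', Finset.sum_const,
      nsmul_eq_mul, Finset.card_univ, ZMod.card, ← hp] at h5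
    -- n^2 (2 p - n) ≤ 2 Q
    have h6 : n ^ 2 * (2 * p - n) ≤ 16 * ep * p ^ 3 := by
      have : n * (p * (2 * n) - n ^ 2) = n ^ 2 * (2 * p - n) := by ring
      rw [this] at h5
      rw [hQ] at hsum'
      linarith
    by_contra hcon
    have h7 : 45 * ep * p < 2 * p - n := not_le.1 hcon
    have h8 : 36 / 100 * p ^ 2 * (2 * p - n) ≤ n ^ 2 * (2 * p - n) := by
      refine mul_le_mul_of_nonneg_right hn2 ?_
      have : 0 ≤ 45 * ep * p := by positivity
      linarith
    have h9 : 36 / 100 * p ^ 2 * (45 * ep * p) < 36 / 100 * p ^ 2 * (2 * p - n) :=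
      mul_lt_mul_of_pos_left h7 (by positivity)
    have h10 : 0 ≤ ep * p ^ 3 := by positivity
    nlinarith
  · exfalso
    have hc' : (S.card : ℝ) ≤ M.card + 1 := by
      have : S.card ≤ M.card + 1 := by omega
      exact_mod_cast this
    have h5 : 2 * n ^ 2 * S.card ≤ 2 * n ^ 2 * (M.card + 1) :=
      mul_le_mul_of_nonneg_left hc' (by positivity)
    have h6 : n ^ 3 ≤ 14 / 3 * Q + 2 * n ^ 2 := by nlinarith
    have h7 : 2 * n ^ 2 ≤ 1 / 1000 * n ^ 3 := by
      have : n ^ 3 = n * n ^ 2 := by ring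
      rw [this]
      have h8 : 2000 * n ^ 2 ≤ n * n ^ 2 :=
        mul_le_mul_of_nonneg_right (by linarith) (by positivity)
      linarith
    linarith

end Pool.Agent.H921.CS
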